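import Pool.Agent.helper38.VA.Spec

/-!
# Row va:LTB (MP_a2a22c_al)
-/

set_option autoImplicit false

namespace Pool.Agent.VA

open Matrix Module Pool.Agent.PR Pool.Agent.H48SL

theorem LTB_int {n : ℕ} (X : MQ n) :
    ∃ m : ℕ, 0 < m ∧ ∃ A : Matrix (Fin n) (Fin n) ℤ, (m : ℚ) • X = cq A := by
  classical
  refine ⟨∏ p : Fin n × Fin n, (X p.1 p.2).den, Finset.prod_pos (fun p _ => (X p.1 p.2).den_pos), ?_⟩
  have h : ∀ i j : Fin n, ∃ a : ℤ, ((∏ p : Fin n × Fin n, (X p.1 p.2).den : ℕ) : ℚ) * X i j = (a : ℚ) := by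
    intro i j
    obtain ⟨c, hc⟩ : (X i j).den ∣ ∏ p : Fin n × Fin n, (X p.1 p.2).den :=
      Finset.dvd_prod_of_mem (fun p : Fin n × Fin n => (X p.1 p.2).den) (Finset.mem_univ (i, j))
    refine ⟨(c : ℤ) * (X i j).num, ?_⟩
    rw [hc]
    have h1 : ((X i j).den : ℚ) * X i j = (X i j).num := by
      rw [mul_comm]; exact Rat.mul_den_eq_num _
    push_cast
    calc ((X i j).den : ℚ) * (c : ℚ) * X i j = (c : ℚ) * (((X i j).den : ℚ) * X i j) := by ring
      _ = (c : ℚ) * ((X i j).num : ℚ) := by rw [h1]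
  choose a ha using h
  refine ⟨Matrix.of a, ?_⟩
  ext i j
  have := ha i j
  simp only [Matrix.smul_apply, smul_eq_mul, cq, Matrix.map_apply, Matrix.of_apply]
  simpa using this

theorem LTB_cq {n : ℕ} (q : ℕ) (γ : SLZ n) (h : γ ∈ Cong (Fin n) q) :
    ∃ B : Matrix (Fin n) (Fin n) ℤ, stdM ℚ γ = 1 + (q : ℚ) • cq B := by
  obtain ⟨B, hB⟩ := mem_Cong.mp h
  refine ⟨B, ?_⟩
  rw [stdM_eq_cq, hB]
  ext i j
  simp only [cq, Matrix.map_apply, Matrix.add_apply, Matrix.smul_apply, smul_eq_mul, map_add, map_mul]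
  congr 1
  by_cases hij : i = j
  · subst hij; simp
  · simp [hij]

theorem LTB : LTB_stmt := by
  intro n b X D hD
  obtain ⟨m, hm, A, hA⟩ := LTB_int X
  obtain ⟨k, hk, hcong⟩ := exists_pow_cong b (D * m) (by positivity)
  refine ⟨k, hk, ?_⟩
  intro i
  have h1 : b ^ (k * i) ∈ Cong (Fin n) (D * m) := by
    rw [pow_mul]
    exact Subgroup.pow_mem _ hcong i
  obtain ⟨B, hB⟩ := LTB_cq (D * m) _ h1
  obtain ⟨B', hB'⟩ := LTB_cq (D * m) _ (Subgroup.inv_mem _ h1)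
  refine ⟨B * A + A * B' + ((D * m : ℕ) : ℤ) • (B * A * B'), ?_⟩
  have hcq : cq (B * A + A * B' + ((D * m : ℕ) : ℤ) • (B * A * B')) =
      cq B * cq A + cq A * cq B' + ((D * m : ℕ) : ℚ) • (cq B * cq A * cq B') := by
    have hmul : ∀ P Q : Matrix (Fin n) (Fin n) ℤ, cq (P * Q) = cq P * cq Q := by
      intro P Q
      exact Matrix.map_mul
    have hadd : ∀ P Q : Matrix (Fin n) (Fin n) ℤ, cq (P + Q) = cq P + cq Q := by
      intro P Q
      ext i j
      simp [cq]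
    have hsm : ∀ (c : ℤ) (P : Matrix (Fin n) (Fin n) ℤ), cq (c • P) = (c : ℚ) • cq P := by
      intro c P
      ext i j
      simp only [cq, Matrix.map_apply, Matrix.smul_apply, smul_eq_mul, map_mul]
      rfl
    rw [hadd, hadd, hsm, hmul, hmul, hmul, hmul]
    norm_cast
  rw [hcq, ← hA, cj_apply, hB, hB']
  simp only [add_mul, mul_add, one_mul, mul_one, Matrix.smul_mul, Matrix.mul_smul, smul_add, smul_smul]
  push_cast

  have e2 : (D : ℚ) * ((D : ℚ) * (m : ℚ) * (m : ℚ)) = (D : ℚ) * (m : ℚ) * ((D : ℚ) * (m : ℚ)) := by ring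

  abel_nf
  ring_nf
  try abel

end Pool.Agent.VA
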